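import Pool.Agent.helper94.T5.SpecP

set_option autoImplicit false

namespace Pool.Agent.T5P

open Finset

theorem PC_one (hPCR : PCR_stmt) (a b : ℕ) [NeZero a] [NeZero b] (hab : Nat.Coprime a b)
    (f : ZMod a → ℝ) (g : ZMod b → ℝ) :
    ∑ r ∈ range (a * b), f (r : ZMod a) * g (r : ZMod b) = (∑ x, f x) * ∑ y, g y := by
  refine (hPCR a b hab (fun x y => f x * g y)).trans ?_
  rw [Finset.sum_mul_sum]

theorem PC_range (b : ℕ) [NeZero b] (f : ZMod b → ℝ) :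
    ∑ r ∈ range b, f (r : ZMod b) = ∑ x, f x := by
  refine Finset.sum_nbij' (fun r => (r : ZMod b)) (fun x => x.val) ?_ ?_ ?_ ?_ ?_
  · intro r _; exact Finset.mem_univ _
  · intro x _; exact Finset.mem_range.mpr (ZMod.val_lt x)
  · intro r hr; exact ZMod.val_cast_of_lt (Finset.mem_range.mp hr)
  · intro x _; exact ZMod.natCast_zmod_val x
  · intro r _; rfl

theorem PC_five (hPCR : PCR_stmt) (a b : ℕ) [NeZero a] [NeZero b] (hab : Nat.Coprime a b)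
    (H : ZMod a → ZMod a → ZMod a → ZMod a → ZMod a → ℝ)
    (P : ZMod b → ZMod b → ZMod b → ZMod b → ZMod b → ℝ) :
    ∑ n ∈ range (a * b), ∑ k ∈ range (a * b), ∑ m ∈ range (a * b), ∑ g ∈ range (a * b),
      ∑ R ∈ range (a * b), H n k m g R * P n k m g R =
    (∑ n, ∑ k, ∑ m, ∑ g, ∑ R, H n k m g R) * ∑ n, ∑ k, ∑ m, ∑ g, ∑ R, P n k m g R := by
  have h1 : ∀ n k m g : ℕ, ∑ R ∈ range (a * b), H n k m g R * P n k m g R =
      (∑ x, H n k m g x) * ∑ y, P n k m g y := fun n k m g =>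
    PC_one hPCR a b hab (fun x => H n k m g x) (fun y => P n k m g y)
  have h2 : ∀ n k m : ℕ, ∑ g ∈ range (a * b), (∑ x, H n k m g x) * ∑ y, P n k m g y =
      (∑ g, ∑ x, H n k m g x) * ∑ g, ∑ y, P n k m g y := fun n k m =>
    PC_one hPCR a b hab (fun g => ∑ x, H n k m g x) (fun g => ∑ y, P n k m g y)
  have h3 : ∀ n k : ℕ, ∑ m ∈ range (a * b), (∑ g, ∑ x, H n k m g x) * ∑ g, ∑ y, P n k m g y =
      (∑ m, ∑ g, ∑ x, H n k m g x) * ∑ m, ∑ g, ∑ y, P n k m g y := fun n k =>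
    PC_one hPCR a b hab (fun m => ∑ g, ∑ x, H n k m g x) (fun m => ∑ g, ∑ y, P n k m g y)
  have h4 : ∀ n : ℕ, ∑ k ∈ range (a * b), (∑ m, ∑ g, ∑ x, H n k m g x) *
      ∑ m, ∑ g, ∑ y, P n k m g y =
      (∑ k, ∑ m, ∑ g, ∑ x, H n k m g x) * ∑ k, ∑ m, ∑ g, ∑ y, P n k m g y := fun n =>
    PC_one hPCR a b hab (fun k => ∑ m, ∑ g, ∑ x, H n k m g x)
      (fun k => ∑ m, ∑ g, ∑ y, P n k m g y)
  have h5 : ∑ n ∈ range (a * b), (∑ k, ∑ m, ∑ g, ∑ x, H n k m g x) *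
      ∑ k, ∑ m, ∑ g, ∑ y, P n k m g y =
      (∑ n, ∑ k, ∑ m, ∑ g, ∑ x, H n k m g x) * ∑ n, ∑ k, ∑ m, ∑ g, ∑ y, P n k m g y :=
    PC_one hPCR a b hab (fun n => ∑ k, ∑ m, ∑ g, ∑ x, H n k m g x)
      (fun n => ∑ k, ∑ m, ∑ g, ∑ y, P n k m g y)
  rw [← h5]
  refine Finset.sum_congr rfl fun n _ => ?_
  rw [← h4 n]
  refine Finset.sum_congr rfl fun k _ => ?_
  rw [← h3 n k]
  refine Finset.sum_congr rfl fun m _ => ?_
  rw [← h2 n k m]
  exact Finset.sum_congr rfl fun g _ => h1 n k m g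

theorem PC_range5 (b : ℕ) [NeZero b] (P : ZMod b → ZMod b → ZMod b → ZMod b → ZMod b → ℝ) :
    ∑ n ∈ range b, ∑ k ∈ range b, ∑ m ∈ range b, ∑ g ∈ range b,
      ∑ R ∈ range b, P n k m g R = ∑ n, ∑ k, ∑ m, ∑ g, ∑ R, P n k m g R := by
  rw [← PC_range b (fun n => ∑ k, ∑ m, ∑ g, ∑ R, P n k m g R)]
  refine Finset.sum_congr rfl fun n _ => ?_
  rw [← PC_range b (fun k => ∑ m, ∑ g, ∑ R, P n k m g R)]
  refine Finset.sum_congr rfl fun k _ => ?_
  rw [← PC_range b (fun m => ∑ g, ∑ R, P n k m g R)]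
  refine Finset.sum_congr rfl fun m _ => ?_
  rw [← PC_range b (fun g => ∑ R, P n k m g R)]
  refine Finset.sum_congr rfl fun g _ => ?_
  exact PC_range b (fun R => P n k m g R)

theorem PC_cast (b c : ℕ) (h : c ∣ b) (n : ℕ) :
    ((((n : ZMod b).val : ℕ) : ℤ) : ZMod c) = ((n : ℤ) : ZMod c) := by
  rw [Int.cast_natCast, Int.cast_natCast, ZMod.val_natCast]
  rw [ZMod.natCast_eq_natCast_iff]
  exact (Nat.mod_modEq n b).of_dvd h

theorem PC_FF (S : Finset ℕ) (n k m g R : ℕ) :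
    FF S (n : ℤ) (k : ℤ) (m : ℤ) (g : ℤ) (R : ℤ) =
      FF S (((n : ZMod (ee S)).val : ℕ) : ℤ) (((k : ZMod (ee S)).val : ℕ) : ℤ)
        (((m : ZMod (ee S)).val : ℕ) : ℤ) (((g : ZMod (ee S)).val : ℕ) : ℤ)
        (((R : ZMod (ee S)).val : ℕ) : ℤ) := by
  unfold FF
  refine Finset.prod_congr rfl fun p hp => ?_
  have hd : p ^ 2 ∣ ee S := Finset.dvd_prod_of_mem (fun p => p ^ 2) hp
  rw [PC_cast _ _ hd, PC_cast _ _ hd, PC_cast _ _ hd, PC_cast _ _ hd, PC_cast _ _ hd]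

theorem PC_local (hPO : PO_stmt) (hP2 : P2_stmt) (p : ℕ) [hp : Fact p.Prime] :
    ∑ n : ZMod (p ^ 2), ∑ k : ZMod (p ^ 2), ∑ m : ZMod (p ^ 2), ∑ g : ZMod (p ^ 2),
      ∑ R : ZMod (p ^ 2), Fp p n k m g R = (p : ℝ) ^ 10 * (1 - 1 / (p : ℝ) ^ 2) ^ 2 := by
  by_cases h : p = 2
  · subst h
    refine Eq.trans hP2 ?_
    norm_num
  · exact hPO p h

theorem PC (hPO : PO_stmt) (hP2 : P2_stmt) (hPCR : PCR_stmt) : PC_stmt := by
  intro S
  induction S using Finset.induction_on with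
  | empty =>
    intro _
    simp [ee, FF]
  | insert p S hpS ih =>
    intro hS
    have hp : p.Prime := hS p (Finset.mem_insert_self p S)
    have hS' : ∀ q ∈ S, q.Prime := fun q hq => hS q (Finset.mem_insert_of_mem hq)
    haveI : Fact p.Prime := ⟨hp⟩
    have hee0 : ee S ≠ 0 := by
      unfold ee
      rw [Finset.prod_ne_zero_iff]
      intro q hq
      exact pow_ne_zero 2 (hS' q hq).ne_zero
    haveI : NeZero (ee S) := ⟨hee0⟩
    have hee : ee (insert p S) = p ^ 2 * ee S := by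
      unfold ee
      rw [Finset.prod_insert hpS]
    have hcop : Nat.Coprime (p ^ 2) (ee S) := by
      unfold ee
      apply Nat.Coprime.prod_right
      intro q hq
      apply Nat.Coprime.pow
      rw [Nat.coprime_primes hp (hS' q hq)]
      rintro rfl
      exact hpS hq
    have hFF : ∀ n k m g R : ℕ, FF (insert p S) (n : ℤ) (k : ℤ) (m : ℤ) (g : ℤ) (R : ℤ) =
        Fp p (n : ZMod (p ^ 2)) (k : ZMod (p ^ 2)) (m : ZMod (p ^ 2)) (g : ZMod (p ^ 2))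
          (R : ZMod (p ^ 2)) *
        FF S (((n : ZMod (ee S)).val : ℕ) : ℤ) (((k : ZMod (ee S)).val : ℕ) : ℤ)
          (((m : ZMod (ee S)).val : ℕ) : ℤ) (((g : ZMod (ee S)).val : ℕ) : ℤ)
          (((R : ZMod (ee S)).val : ℕ) : ℤ) := by
      intro n k m g R
      rw [← PC_FF]
      unfold FF
      rw [Finset.prod_insert hpS]
      simp only [Int.cast_natCast]
    rw [hee]
    have h1 : ∑ n ∈ range (p ^ 2 * ee S), ∑ k ∈ range (p ^ 2 * ee S),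
        ∑ m ∈ range (p ^ 2 * ee S), ∑ g ∈ range (p ^ 2 * ee S),
        ∑ R ∈ range (p ^ 2 * ee S), FF (insert p S) (n : ℤ) (k : ℤ) (m : ℤ) (g : ℤ) (R : ℤ) =
        (∑ n : ZMod (p ^ 2), ∑ k : ZMod (p ^ 2), ∑ m : ZMod (p ^ 2), ∑ g : ZMod (p ^ 2),
          ∑ R : ZMod (p ^ 2), Fp p n k m g R) *
        ∑ n : ZMod (ee S), ∑ k : ZMod (ee S), ∑ m : ZMod (ee S), ∑ g : ZMod (ee S),
          ∑ R : ZMod (ee S), FF S ((n.val : ℕ) : ℤ) ((k.val : ℕ) : ℤ)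
          ((m.val : ℕ) : ℤ) ((g.val : ℕ) : ℤ) ((R.val : ℕ) : ℤ) := by
      rw [← PC_five hPCR (p ^ 2) (ee S) hcop (fun n k m g R => Fp p n k m g R)
        (fun n k m g R => FF S ((n.val : ℕ) : ℤ) ((k.val : ℕ) : ℤ)
          ((m.val : ℕ) : ℤ) ((g.val : ℕ) : ℤ) ((R.val : ℕ) : ℤ))]
      refine Finset.sum_congr rfl fun n _ => Finset.sum_congr rfl fun k _ =>
        Finset.sum_congr rfl fun m _ => Finset.sum_congr rfl fun g _ =>
        Finset.sum_congr rfl fun R _ => hFF n k m g R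
    rw [h1, PC_local hPO hP2 p]
    have h2 := PC_range5 (ee S) (fun n k m g R => FF S ((n.val : ℕ) : ℤ) ((k.val : ℕ) : ℤ)
          ((m.val : ℕ) : ℤ) ((g.val : ℕ) : ℤ) ((R.val : ℕ) : ℤ))
    simp only [← PC_FF] at h2
    rw [← h2, ih hS', Finset.prod_insert hpS]
    push_cast
    ring

end Pool.Agent.T5P
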