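import Pool.Agent.helper95.T5.SpecN
import Pool.Agent.helper77.FT.E1

set_option autoImplicit false

namespace Pool.Agent.T5

open Finset NumberField Pool.Agent.helper3.FT Pool.Agent.helper47.RA

/-- geometric sums -/
noncomputable def TRZ_D (q N : ℕ) (h : ℕ) : ℂ := ∑ z ∈ range N, e (-(h * z / q : ℝ))

theorem TRZ_D_le_card (q N h : ℕ) : ‖TRZ_D q N h‖ ≤ N := by
  unfold TRZ_D
  refine le_trans (norm_sum_le _ _) ?_
  simp [E1_norm_e]

theorem TRZ_nd (t : ℝ) (h0 : 0 ≤ t) (h1 : t ≤ 1 / 2) : t ≤ nd (-t) := by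
  unfold nd
  rcases lt_trichotomy (round (-t)) 0 with h | h | h
  · have h2 : (round (-t) : ℝ) ≤ -1 := by exact_mod_cast (by omega : round (-t) ≤ -1)
    rw [le_abs]; left; linarith
  · rw [h]; rw [le_abs]; right; push_cast; linarith
  · have h2 : (1 : ℝ) ≤ (round (-t) : ℝ) := by exact_mod_cast (by omega : 1 ≤ round (-t))
    rw [le_abs]; right; linarith

theorem TRZ_D_le_inv (q N h : ℕ) (hh : 1 ≤ h) (hq : 2 * h ≤ q) :
    ‖TRZ_D q N h‖ ≤ q / (2 * h) := by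
  have hhr : (1 : ℝ) ≤ h := by exact_mod_cast hh
  have hqr : 2 * (h : ℝ) ≤ q := by exact_mod_cast hq
  have hq0 : (0 : ℝ) < q := by linarith
  have h1 := E1_geom_mul (-(h / q : ℝ)) 0 N
  have h2 : (∑ j ∈ range N, e (-(h / q : ℝ) * (((0 : ℤ) + (j : ℤ) : ℤ) : ℝ))) = TRZ_D q N h := by
    unfold TRZ_D
    refine Finset.sum_congr rfl fun j _ => ?_
    congr 1
    push_cast
    ring
  rw [h2] at h1
  have h3 : ‖TRZ_D q N h‖ * ‖e (-(h / q : ℝ)) - 1‖ ≤ 2 := by
    rw [← norm_mul, h1]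
    refine le_trans (norm_sub_le _ _) ?_
    rw [E1_norm_e, E1_norm_e]
    norm_num
  have h4 := E1_norm_sub_one (-(h / q : ℝ))
  have h5 := TRZ_nd (h / q : ℝ) (by positivity) (by rw [div_le_iff₀ hq0]; linarith)
  have h6 : 4 * (h / q : ℝ) ≤ ‖e (-(h / q : ℝ)) - 1‖ := by linarith
  have h7 : ‖TRZ_D q N h‖ * (4 * (h / q : ℝ)) ≤ 2 :=
    le_trans (mul_le_mul_of_nonneg_left h6 (norm_nonneg _)) h3
  rw [le_div_iff₀ (by linarith)]
  have h8 : ‖TRZ_D q N h‖ * (4 * (h / q : ℝ)) = (‖TRZ_D q N h‖ * (2 * h)) * (2 / q) := by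
    field_simp
    ring
  rw [h8] at h7
  have h9 : (‖TRZ_D q N h‖ * (2 * h)) * (2 / q) * (q / 2) ≤ 2 * (q / 2) :=
    mul_le_mul_of_nonneg_right h7 (by positivity)
  have h10 : (‖TRZ_D q N h‖ * (2 * h)) * (2 / q) * (q / 2) = ‖TRZ_D q N h‖ * (2 * h) := by
    field_simp
  linarith

theorem TRZ_norm_e_neg {ι : Type} (s : Finset ι) (f : ι → ℝ) :
    ‖∑ i ∈ s, e (-(f i))‖ = ‖∑ i ∈ s, e (f i)‖ := by
  have h : (∑ i ∈ s, e (-(f i))) = (starRingEnd ℂ) (∑ i ∈ s, e (f i)) := by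
    rw [map_sum]
    exact Finset.sum_congr rfl fun i _ => (E1_conj_e _).symm
  rw [h, RCLike.norm_conj]

theorem TRZ_e_shift (y : ℤ) (q h : ℕ) (hq : 0 < q) (hh : h ≤ q) :
    e (((q - h : ℕ) : ℝ) * y / q) = e (-((h : ℝ) * y / q)) := by
  have hq0 : (q : ℝ) ≠ 0 := by positivity
  have h1 : ((q - h : ℕ) : ℝ) * y / q = -((h : ℝ) * y / q) + ((y : ℤ) : ℝ) := by
    rw [Nat.cast_sub hh]
    field_simp
    ring
  rw [h1, E1_e_add, E1_e_int, mul_one]

theorem TRZ_D_symm (q N h : ℕ) (hq : 0 < q) (hh : h ≤ q) :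
    ‖TRZ_D q N (q - h)‖ = ‖TRZ_D q N h‖ := by
  unfold TRZ_D
  rw [TRZ_norm_e_neg, TRZ_norm_e_neg]
  have h1 : (∑ z ∈ range N, e (((q - h : ℕ) : ℝ) * z / q)) =
      ∑ z ∈ range N, e (-((h : ℝ) * z / q)) := by
    refine Finset.sum_congr rfl fun z _ => ?_
    have h2 := TRZ_e_shift (z : ℤ) q h hq hh
    simpa using h2
  rw [h1, TRZ_norm_e_neg]

theorem TRZ_S_symm {ι : Type} (s : Finset ι) (x : ι → ℤ) (q h : ℕ) (hq : 0 < q) (hh : h ≤ q) :
    ‖∑ i ∈ s, e (((q - h : ℕ) : ℝ) * x i / q)‖ = ‖∑ i ∈ s, e ((h : ℝ) * x i / q)‖ := by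
  have h1 : (∑ i ∈ s, e (((q - h : ℕ) : ℝ) * x i / q)) = ∑ i ∈ s, e (-((h : ℝ) * x i / q)) :=
    Finset.sum_congr rfl fun i _ => TRZ_e_shift (x i) q h hq hh
  rw [h1, TRZ_norm_e_neg]

theorem TRZ_fold (q : ℕ) (F : ℕ → ℝ) (hF : ∀ h, 0 ≤ F h)
    (hs : ∀ h, 1 ≤ h → h < q → F (q - h) = F h) :
    ∑ h ∈ Ico 1 q, F h ≤ 2 * ∑ h ∈ Icc 1 (q / 2), F h := by
  have h1 : ∑ h ∈ Ico 1 q, F h = ∑ h ∈ (Ico 1 q).filter (fun h => 2 * h ≤ q), F h +
      ∑ h ∈ (Ico 1 q).filter (fun h => ¬ 2 * h ≤ q), F h :=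
    (Finset.sum_filter_add_sum_filter_not _ _ _).symm
  have h2 : ∑ h ∈ (Ico 1 q).filter (fun h => 2 * h ≤ q), F h ≤ ∑ h ∈ Icc 1 (q / 2), F h := by
    apply Finset.sum_le_sum_of_subset_of_nonneg
    · intro h hh
      rw [Finset.mem_filter, Finset.mem_Ico] at hh
      rw [Finset.mem_Icc]
      omega
    · intro h _ _; exact hF h
  have h3 : ∑ h ∈ (Ico 1 q).filter (fun h => ¬ 2 * h ≤ q), F h ≤ ∑ h ∈ Icc 1 (q / 2), F h := by
    have h4 : ∑ h ∈ (Ico 1 q).filter (fun h => ¬ 2 * h ≤ q), F h =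
        ∑ h ∈ (Ico 1 q).filter (fun h => ¬ 2 * h ≤ q), F (q - h) := by
      refine Finset.sum_congr rfl fun h hh => ?_
      rw [Finset.mem_filter, Finset.mem_Ico] at hh
      exact (hs h hh.1.1 hh.1.2).symm
    have h5 : ∑ h ∈ (Ico 1 q).filter (fun h => ¬ 2 * h ≤ q), F (q - h) =
        ∑ k ∈ ((Ico 1 q).filter (fun h => ¬ 2 * h ≤ q)).image (fun h => q - h), F k := by
      rw [Finset.sum_image]
      intro a ha b hb hab
      have ha' := Finset.mem_filter.mp (Finset.mem_coe.mp ha)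
      have hb' := Finset.mem_filter.mp (Finset.mem_coe.mp hb)
      rw [Finset.mem_Ico] at ha' hb'
      simp only at hab
      omega
    rw [h4, h5]
    apply Finset.sum_le_sum_of_subset_of_nonneg
    · intro k hk
      obtain ⟨h, hh, rfl⟩ := Finset.mem_image.mp hk
      rw [Finset.mem_filter, Finset.mem_Ico] at hh
      rw [Finset.mem_Icc]
      omega
    · intro h _ _; exact hF h
  linarith

theorem TRZ_ind (y : ℤ) (q : ℕ) (hq : 0 < q) :
    ∑ h ∈ range q, e ((h : ℝ) * y / q) = if (q : ℤ) ∣ y then (q : ℂ) else 0 := by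
  have hq0 : (q : ℝ) ≠ 0 := by positivity
  split_ifs with hd
  · obtain ⟨k, hk⟩ := hd
    have h1 : ∀ h ∈ range q, e ((h : ℝ) * y / q) = 1 := by
      intro h _
      have h2 : (h : ℝ) * y / q = (((h : ℤ) * k : ℤ) : ℝ) := by
        rw [hk]; push_cast; field_simp
      rw [h2, E1_e_int]
    rw [Finset.sum_congr rfl h1]
    simp
  · have h1 := E1_geom_mul ((y : ℝ) / q) 0 q
    have h2 : (∑ j ∈ range q, e ((y : ℝ) / q * (((0 : ℤ) + (j : ℤ) : ℤ) : ℝ))) =
        ∑ h ∈ range q, e ((h : ℝ) * y / q) := by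
      refine Finset.sum_congr rfl fun j _ => ?_
      congr 1
      push_cast
      ring
    rw [h2] at h1
    have h3 : e ((y : ℝ) / q * (((0 : ℤ) + (q : ℤ) : ℤ) : ℝ)) = 1 := by
      have h4 : (y : ℝ) / q * (((0 : ℤ) + (q : ℤ) : ℤ) : ℝ) = ((y : ℤ) : ℝ) := by
        push_cast; field_simp; ring
      rw [h4, E1_e_int]
    have h5 : e ((y : ℝ) / q * ((0 : ℤ) : ℝ)) = 1 := by
      rw [Int.cast_zero, mul_zero, E1_e_zero]
    rw [h3, h5, sub_self] at h1
    rcases mul_eq_zero.mp h1 with h6 | h6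
    · exact h6
    · exfalso
      have h7 := E1_norm_sub_one ((y : ℝ) / q)
      rw [h6, norm_zero] at h7
      have h8 : |(y : ℝ) / q - round ((y : ℝ) / q)| = 0 := by
        have h9 : nd ((y : ℝ) / q) = |(y : ℝ) / q - round ((y : ℝ) / q)| := rfl
        rw [← h9]
        have h10 : 0 ≤ nd ((y : ℝ) / q) := abs_nonneg _
        linarith
      have h11 : (y : ℝ) / q = round ((y : ℝ) / q) := by
        have := abs_eq_zero.mp h8
        linarith
      apply hd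
      refine ⟨round ((y : ℝ) / q), ?_⟩
      have h12 : (y : ℝ) = q * (round ((y : ℝ) / q) : ℝ) := by
        field_simp at h11
        linarith
      exact_mod_cast h12

/-- number of representations `x = c + z + j` modulo `q` -/
noncomputable def TRZ_w (q V J : ℕ) (c y : ℤ) : ℝ :=
  ∑ z ∈ range V, ∑ j ∈ range J, if (q : ℤ) ∣ y - c - z - j then (1 : ℝ) else 0

theorem TRZ_fourier {ι : Type} (s : Finset ι) (x : ι → ℤ) (q V J : ℕ) (c : ℤ) (hq : 0 < q) :
    (((q : ℝ) * ∑ i ∈ s, TRZ_w q V J c (x i) : ℝ) : ℂ) =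
      ∑ h ∈ range q, e (-((h : ℝ) * c / q)) * TRZ_D q V h * TRZ_D q J h *
        ∑ i ∈ s, e ((h : ℝ) * x i / q) := by
  have h1 : ∀ h ∈ range q, e (-((h : ℝ) * c / q)) * TRZ_D q V h * TRZ_D q J h *
        ∑ i ∈ s, e ((h : ℝ) * x i / q) =
      ∑ i ∈ s, ∑ z ∈ range V, ∑ j ∈ range J, e ((h : ℝ) * ((x i - c - z - j : ℤ) : ℝ) / q) := by
    intro h _
    unfold TRZ_D
    rw [Finset.mul_sum]
    refine Finset.sum_congr rfl fun i _ => ?_
    rw [mul_assoc, mul_assoc, Finset.sum_mul, Finset.mul_sum]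
    refine Finset.sum_congr rfl fun z _ => ?_
    rw [Finset.sum_mul, Finset.mul_sum, Finset.mul_sum]
    refine Finset.sum_congr rfl fun j _ => ?_
    have h2 : (h : ℝ) * ((x i - c - z - j : ℤ) : ℝ) / q =
        -((h : ℝ) * c / q) + (-((h : ℝ) * z / q) + (-((h : ℝ) * j / q) + (h : ℝ) * x i / q)) := by
      push_cast; ring
    rw [h2, E1_e_add, E1_e_add, E1_e_add]
  rw [Finset.sum_congr rfl h1]
  rw [Finset.sum_comm]
  push_cast
  rw [Finset.mul_sum]
  refine Finset.sum_congr rfl fun i _ => ?_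
  have h3 : ∑ h ∈ range q, ∑ z ∈ range V, ∑ j ∈ range J,
      e ((h : ℝ) * ((x i - c - z - j : ℤ) : ℝ) / q) =
      ∑ z ∈ range V, ∑ j ∈ range J, ∑ h ∈ range q,
      e ((h : ℝ) * ((x i - c - z - j : ℤ) : ℝ) / q) := by
    rw [Finset.sum_comm]
    refine Finset.sum_congr rfl fun z _ => ?_
    rw [Finset.sum_comm]
  have h4 : ((TRZ_w q V J c (x i) : ℝ) : ℂ) = ∑ z ∈ range V, ∑ j ∈ range J,
      (if (q : ℤ) ∣ x i - c - z - j then (1 : ℂ) else 0) := by
    unfold TRZ_w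
    push_cast
    refine Finset.sum_congr rfl fun z _ => Finset.sum_congr rfl fun j _ => ?_
    split_ifs <;> simp
  rw [h4, Finset.mul_sum]
  push_cast at h3 ⊢
  rw [h3]
  refine Finset.sum_congr rfl fun z _ => ?_
  rw [Finset.mul_sum]
  refine Finset.sum_congr rfl fun j _ => ?_
  have h5 := TRZ_ind (x i - c - z - j) q hq
  push_cast at h5
  rw [h5]
  split_ifs <;> simp

theorem TRZ_main {ι : Type} (s : Finset ι) (x : ι → ℤ) (q V J : ℕ) (c : ℤ) (hq : 0 < q) :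
    |(q : ℝ) * ∑ i ∈ s, TRZ_w q V J c (x i) - s.card * V * J| ≤
      2 * ∑ h ∈ Icc 1 (q / 2), min (V : ℝ) (q / (2 * h)) * min (J : ℝ) (q / (2 * h)) *
        ‖∑ i ∈ s, e ((h : ℝ) * x i / q)‖ := by
  set F : ℕ → ℝ := fun h => ‖TRZ_D q V h‖ * ‖TRZ_D q J h‖ * ‖∑ i ∈ s, e ((h : ℝ) * x i / q)‖
    with hF
  have h1 := TRZ_fourier s x q V J c hq
  have h2 : range q = insert 0 (Ico 1 q) := by
    ext k
    simp only [Finset.mem_range, Finset.mem_insert, Finset.mem_Ico]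
    omega
  rw [h2, Finset.sum_insert (by simp)] at h1
  have h3 : e (-(((0 : ℕ) : ℝ) * c / q)) * TRZ_D q V 0 * TRZ_D q J 0 *
      ∑ i ∈ s, e (((0 : ℕ) : ℝ) * x i / q) = ((s.card * V * J : ℝ) : ℂ) := by
    unfold TRZ_D
    simp only [Nat.cast_zero, zero_mul, zero_div, neg_zero, E1_e_zero, Finset.sum_const,
      Finset.card_range, nsmul_eq_mul, mul_one, one_mul]
    push_cast
    ring
  rw [h3] at h1
  have h4 : (((q : ℝ) * ∑ i ∈ s, TRZ_w q V J c (x i) - s.card * V * J : ℝ) : ℂ) =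
      ∑ h ∈ Ico 1 q, e (-((h : ℝ) * c / q)) * TRZ_D q V h * TRZ_D q J h *
        ∑ i ∈ s, e ((h : ℝ) * x i / q) := by
    rw [Complex.ofReal_sub, h1]
    ring
  have h5 : |(q : ℝ) * ∑ i ∈ s, TRZ_w q V J c (x i) - s.card * V * J| ≤ ∑ h ∈ Ico 1 q, F h := by
    rw [← Real.norm_eq_abs, ← Complex.norm_real, h4]
    refine le_trans (norm_sum_le _ _) (Finset.sum_le_sum fun h _ => ?_)
    rw [norm_mul, norm_mul, norm_mul, E1_norm_e, one_mul]
  refine le_trans h5 ?_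
  refine le_trans (TRZ_fold q F (fun h => by rw [hF]; positivity) ?_) ?_
  · intro h hh1 hh2
    simp only [hF]
    rw [TRZ_D_symm q V h hq hh2.le, TRZ_D_symm q J h hq hh2.le, TRZ_S_symm s x q h hq hh2.le]
  · apply mul_le_mul_of_nonneg_left _ (by norm_num)
    refine Finset.sum_le_sum fun h hh => ?_
    rw [Finset.mem_Icc] at hh
    have hh2 : 2 * h ≤ q := by omega
    simp only [hF]
    apply mul_le_mul_of_nonneg_right _ (norm_nonneg _)
    apply mul_le_mul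
    · exact le_min (TRZ_D_le_card q V h) (TRZ_D_le_inv q V h hh.1 hh2)
    · exact le_min (TRZ_D_le_card q J h) (TRZ_D_le_inv q J h hh.1 hh2)
    · exact norm_nonneg _
    · have h6 : (1 : ℝ) ≤ h := by exact_mod_cast hh.1
      exact le_min (by positivity) (by positivity)

theorem TRZ_upper (q V J : ℕ) (c y : ℤ) (hy : ∃ z ∈ Ico c (c + V), (q : ℤ) ∣ y - z) :
    (J : ℝ) ≤ TRZ_w q (V + J) J (c - J) y := by
  obtain ⟨z0, hz0, hd⟩ := hy
  rw [Finset.mem_Ico] at hz0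
  unfold TRZ_w
  rw [Finset.sum_comm]
  have h1 : (J : ℝ) = ∑ j ∈ range J, (1 : ℝ) := by simp
  rw [h1]
  refine Finset.sum_le_sum fun j hj => ?_
  rw [Finset.mem_range] at hj
  have hnn : 0 ≤ z0 - c + J - j := by omega
  have hmem : (z0 - c + J - j).toNat ∈ range (V + J) := by
    rw [Finset.mem_range]; omega
  have h2 := Finset.single_le_sum (s := range (V + J))
    (f := fun z : ℕ => if (q : ℤ) ∣ y - (c - J) - z - j then (1 : ℝ) else 0)
    (fun z _ => by positivity) hmem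
  refine le_trans ?_ h2
  have h3 : (((z0 - c + J - j).toNat : ℕ) : ℤ) = z0 - c + J - j := Int.toNat_of_nonneg hnn
  have h4 : (q : ℤ) ∣ y - (c - J) - (((z0 - c + J - j).toNat : ℕ) : ℤ) - j := by
    rw [h3]
    have h5 : y - (c - J) - (z0 - c + J - j) - j = y - z0 := by ring
    rw [h5]; exact hd
  simp only [h4, if_true, le_refl]

theorem TRZ_lower_mem (q V J : ℕ) (c y : ℤ) (hJV : J ≤ V) (hV : V + J ≤ q) :
    TRZ_w q (V - J) J c y ≤ J := by
  unfold TRZ_w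
  rw [Finset.sum_comm]
  have h1 : (J : ℝ) = ∑ j ∈ range J, (1 : ℝ) := by simp
  rw [h1]
  refine Finset.sum_le_sum fun j hj => ?_
  rw [Finset.sum_ite, Finset.sum_const_zero, add_zero, Finset.sum_const, nsmul_eq_mul, mul_one]
  have h2 : ((range (V - J)).filter (fun z : ℕ => (q : ℤ) ∣ y - c - z - j)).card ≤ 1 := by
    rw [Finset.card_le_one]
    intro a ha b hb
    rw [Finset.mem_filter, Finset.mem_range] at ha hb
    have h3 : (q : ℤ) ∣ (a : ℤ) - b := by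
      have h4 := dvd_sub hb.2 ha.2
      have h5 : y - c - b - j - (y - c - a - j) = (a : ℤ) - b := by ring
      rwa [h5] at h4
    have h6 : |(a : ℤ) - b| < q := by
      rw [abs_lt]
      constructor <;> omega
    have h7 := Int.eq_zero_of_abs_lt_dvd h3 h6
    omega
  exact_mod_cast h2

theorem TRZ_lower_not (q V J : ℕ) (c y : ℤ) (hJV : J ≤ V)
    (hy : ¬ ∃ z ∈ Ico c (c + V), (q : ℤ) ∣ y - z) : TRZ_w q (V - J) J c y = 0 := by
  unfold TRZ_w
  apply Finset.sum_eq_zero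
  intro z hz
  apply Finset.sum_eq_zero
  intro j hj
  rw [Finset.mem_range] at hz hj
  rw [if_neg]
  intro hd
  apply hy
  refine ⟨c + z + j, ?_, ?_⟩
  · rw [Finset.mem_Ico]
    constructor <;> omega
  · have h1 : y - (c + z + j) = y - c - z - j := by ring
    rw [h1]; exact hd

theorem TRZ : TRZ_stmt := by
  intro ι s x q V J c hJ hJV hVq
  have hq : 0 < q := by omega
  have hqr : (0 : ℝ) < q := by exact_mod_cast hq
  have hJr : (0 : ℝ) < J := by exact_mod_cast (by omega : 0 < J)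
  have hVr : (0 : ℝ) ≤ V := by positivity
  have hJVr : (J : ℝ) ≤ V := by exact_mod_cast hJV
  set R : ℝ := ∑ h ∈ Icc 1 (q / 2),
    min (2 * V : ℝ) (q / (2 * h)) * min (J : ℝ) (q / (2 * h)) * ‖∑ i ∈ s, e (h * x i / q)‖ with hR
  set n : ℝ := ((s.filter (fun i => ∃ z ∈ Ico c (c + V), (q : ℤ) ∣ x i - z)).card : ℝ) with hn
  have hmono : ∀ V' : ℕ, (V' : ℝ) ≤ 2 * V →
      ∑ h ∈ Icc 1 (q / 2), min (V' : ℝ) (q / (2 * h)) * min (J : ℝ) (q / (2 * h)) *
        ‖∑ i ∈ s, e ((h : ℝ) * x i / q)‖ ≤ R := by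
    intro V' hV'
    refine Finset.sum_le_sum fun h hh => ?_
    apply mul_le_mul_of_nonneg_right _ (norm_nonneg _)
    apply mul_le_mul_of_nonneg_right
    · exact min_le_min_right _ hV'
    · exact le_min (by positivity) (by positivity)
  -- upper bound
  have hup : (J : ℝ) * n ≤ ∑ i ∈ s, TRZ_w q (V + J) J (c - J) (x i) := by
    have h1 : (J : ℝ) * n = ∑ i ∈ s.filter (fun i => ∃ z ∈ Ico c (c + V), (q : ℤ) ∣ x i - z),
        (J : ℝ) := by
      rw [Finset.sum_const, nsmul_eq_mul, hn]; ring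
    rw [h1]
    refine le_trans (Finset.sum_le_sum (g := fun i => TRZ_w q (V + J) J (c - J) (x i)) ?_) ?_
    · intro i hi
      exact TRZ_upper q V J c (x i) (Finset.mem_filter.mp hi).2
    · apply Finset.sum_le_sum_of_subset_of_nonneg (Finset.filter_subset _ _)
      intro i _ _
      unfold TRZ_w
      positivity
  have hlo : ∑ i ∈ s, TRZ_w q (V - J) J c (x i) ≤ (J : ℝ) * n := by
    have h1 : (J : ℝ) * n = ∑ i ∈ s, if (∃ z ∈ Ico c (c + V), (q : ℤ) ∣ x i - z) then (J : ℝ)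
        else 0 := by
      rw [Finset.sum_ite, Finset.sum_const_zero, add_zero, Finset.sum_const, nsmul_eq_mul, hn]; ring
    rw [h1]
    refine Finset.sum_le_sum fun i _ => ?_
    split_ifs with hy
    · exact TRZ_lower_mem q V J c (x i) hJV hVq
    · exact le_of_eq (TRZ_lower_not q V J c (x i) hJV hy)
  have hm1 := abs_le.mp (TRZ_main s x q (V + J) J (c - J) hq)
  have hm2 := abs_le.mp (TRZ_main s x q (V - J) J c hq)
  have hb1 := hmono (V + J) (by push_cast; linarith)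
  have hb2 := hmono (V - J) (by rw [Nat.cast_sub hJV]; linarith)
  rw [Nat.cast_sub hJV] at hm2
  push_cast at hm1
  have hR0 : 0 ≤ R := by
    rw [hR]
    apply Finset.sum_nonneg
    intro h _
    positivity
  have hu : (q : ℝ) * (J * n) ≤ s.card * (V + J) * J + 2 * R := by
    have h1 := mul_le_mul_of_nonneg_left hup hqr.le
    push_cast at hb1
    linarith [hm1.2]
  have hl : s.card * (V - J) * J - 2 * R ≤ (q : ℝ) * (J * n) := by
    have h1 := mul_le_mul_of_nonneg_left hlo hqr.le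
    rw [Nat.cast_sub hJV] at hb2
    linarith [hm2.1]
  have hJq : (0 : ℝ) < J * q := by positivity
  have he1 : n - s.card * (V : ℝ) / q = ((q : ℝ) * (J * n) - s.card * V * J) / (J * q) := by
    field_simp
  have he2 : (s.card : ℝ) * (J : ℝ) / q + 4 / (J * q : ℝ) * R =
      (s.card * J * J + 4 * R) / (J * q) := by
    field_simp
  rw [he1, he2, abs_le]
  constructor
  · rw [← neg_div]
    apply div_le_div_of_nonneg_right _ hJq.le
    nlinarith
  · apply div_le_div_of_nonneg_right _ hJq.le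
    nlinarith

end Pool.Agent.T5
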